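import Pool.Agent.N874.WG.H

/-!
# Weakly global points of level one for the line minus a divisor containing a section

`f ∈ ℤ[X]` monic, `𝒟 = ∞ ∪ V(f) ⊂ ℙ¹_ℤ`, `𝒳 = ℙ¹_ℤ ∖ 𝒟` (kind (i) of the problem when `f` is squarefree
of degree at least two: a reduced horizontal divisor which contains a section disjoint from the other
components, moved to `∞` by `GL₂(ℤ)`).  Then `𝒳(ℤ) = {z ∈ ℤ : f(z) ∈ ℤ^×}`,
`𝒳(ℤ_p) = {z ∈ ℤ_p : f(z) ∈ ℤ_p^×}`.

Level one.  `U_1 = V_p(T)` with the torus `T = Res_{A/ℚ} 𝔾_m`, `A = ℚ[X]/(f)` (the generalised Jacobian of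
`(ℙ¹, 𝒟)`), and the level one Albanese map is the Kummer map of `z ↦ (z - X)/(b - X) ∈ T`.  By Kummer
theory and the finiteness of the class group the classes of `H¹_f(G_T, U_1)` which have at every
`v ≠ p` the local component of a point of `𝒳(ℤ_v)` (there `z - X` is a unit of `ℤ_v[X]/(f)`) are the
classes of `O_A^×/(b - X)`, `O_A^×` taken modulo torsion and tensored with `ℚ_p` (if `𝒳(ℤ_v)` is empty for one `v ≠ p`
there is none, and `𝒳(ℤ_p)_n = 𝒳(ℤ) = ∅` for all `n`).  So `𝒳(ℤ_p)_1` is the set of the `z ∈ 𝒳(ℤ_p)`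
such that a power of `z - X` is in the closure of `(ℤ[X]/(f))^×` in `(ℤ_p[X]/(f))^×`; this is `Level1`.
It does not depend on `b` and `S`.

`result`: `𝒳(ℤ) ⊂ 𝒳(ℤ_p)_1`, and `𝒳(ℤ_p)_1 = 𝒳(ℤ)` (question Q1 with `N = 1`, as the sets decrease)
* for every `p` if `𝒟` contains besides `∞` an imaginary quadratic component `X² + bX + c`,
  `b² < 4c`;
* for every `p` if `𝒟` contains besides `∞` two sections `a`, `m` with `|a - m| ≥ 2` (so always if `f` has
  at least three integral roots);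
* for every `p` if `𝒟` contains besides `∞` a section `a` and no complex root of unity `ζ ≠ ± 1` makes all
  `g(a + ζ)`, `g` monic with `(X - a) g ∣ f`, roots of unity;
* if `𝒟` contains besides `∞` a section `a` and `V(g)`, `g` monic of degree `d ≥ 1`, `g(a) ≠ 0`: for
  every `p ≡ 3 mod 4` with `p ≢ 1 mod q` for all odd primes `q ≤ 2d + 1` (for example `p = 3`;
  infinitely many `p`); for all `p` there are at most `2d` points in `𝒳(ℤ_p)_1`, and all are `a +` a root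
  of unity of an order `m` with `φ(m) ≤ 2d`.

Idea: the norm of `ℤ[X]/(f)` gives that `f(z)` is a root of unity for `z ∈ 𝒳(ℤ_p)_1`; with a section `a`
also `ζ = z - a` and `g(a + ζ)` are roots of unity, and the Galois conjugation `ζ ↦ ζ⁻¹` of the
cyclotomic field gives the equation `g(a + ζ) g(a + ζ⁻¹) = 1` of degree `2d`.  In the imaginary
quadratic case all units are torsion, `z - α`, `z - ᾱ` are roots of unity and `z` is rational.
-/

set_option autoImplicit false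

open Polynomial

namespace Pool.Agent.Results.MP_fd87b4_nt.LevelOneForTheLine

/-- `𝒳(ℤ)` -/
def IntPts (f : ℤ[X]) : Set ℤ := {z | IsUnit (f.eval z)}

/-- `𝒳(ℤ_p)` -/
def PadicPts (p : ℕ) [Fact p.Prime] (f : ℤ[X]) : Set ℤ_[p] :=
  {z | IsUnit ((f.map (Int.castRingHom ℤ_[p])).eval z)}

/-- `u` is a unit of `ℤ[X]/(f)` -/
def UnitMod (f u : ℤ[X]) : Prop := ∃ v a : ℤ[X], u * v = 1 + f * a

/-- the class of `P` is in the closure of the image of `(ℤ[X]/(f))^×` in `ℤ_p[X]/(f)` -/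
def InClosure (p : ℕ) [Fact p.Prime] (f : ℤ[X]) (P : ℤ_[p][X]) : Prop :=
  ∀ k : ℕ, ∃ u : ℤ[X], UnitMod f u ∧ ∃ b c : ℤ_[p][X],
    P = u.map (Int.castRingHom ℤ_[p]) + f.map (Int.castRingHom ℤ_[p]) * b +
      C ((p : ℤ_[p]) ^ k) * c

/-- `𝒳(ℤ_p)_1` -/
def Level1 (p : ℕ) [Fact p.Prime] (f : ℤ[X]) : Set ℤ_[p] :=
  {z | z ∈ PadicPts p f ∧ ∃ n : ℕ, 0 < n ∧ InClosure p f ((C z - X) ^ n)}

/-- `𝒳(ℤ_p)_1 = 𝒳(ℤ)` -/
def Settled (p : ℕ) [Fact p.Prime] (f : ℤ[X]) : Prop :=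
  Level1 p f = (fun z : ℤ => (z : ℤ_[p])) '' IntPts f

/-- `p ≡ 3 mod 4` and `p ≢ 1 mod q` for all odd primes `q ≤ 2d + 1` -/
def Good (d p : ℕ) : Prop :=
  p % 4 = 3 ∧ ∀ q : ℕ, q.Prime → q ≠ 2 → q ≤ 2 * d + 1 → ¬ q ∣ p - 1

/-- a complex root of unity -/
def Ru (ζ : ℂ) : Prop := ∃ n : ℕ, 0 < n ∧ ζ ^ n = 1

section proof

open Pool.Agent.N874.WG

variable {p : ℕ} [Fact p.Prime]

theorem mem_level (f : ℤ[X]) (x : ℤ) (hx : x ∈ IntPts f) : (x : ℤ_[p]) ∈ Level1 p f := by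
  have hx' : f.eval x = 1 ∨ f.eval x = -1 := Int.isUnit_iff.1 hx
  refine ⟨?_, 1, one_pos, approx_int f x hx'⟩
  change IsUnit ((toP p f).eval (x : ℤ_[p]))
  rw [toP_eval_int]
  rcases hx' with h | h <;> rw [h] <;> simp

theorem settled_of {f : ℤ[X]} (hf : f.Monic)
    (h : ∀ (z : ℤ_[p]) (n : ℕ), 0 < n → Approx p f z n → ∃ x : ℤ, z = x) : Settled p f := by
  refine Set.Subset.antisymm ?_ ?_
  · rintro z ⟨-, n, hn, hz⟩
    obtain ⟨x, rfl⟩ := h z n hn hz
    have h1 := f_pow hf hz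
    rw [toP_eval_int] at h1
    exact ⟨x, Int.isUnit_iff.2 (int_pm (by omega : 0 < 2 * n) h1), rfl⟩
  · rintro z ⟨x, hx, rfl⟩
    exact mem_level f x hx

theorem fin_bound {a : ℤ} {g h : ℤ[X]} (hg : g.Monic) (hd : 0 < g.natDegree) (ha : g.eval a ≠ 0) :
    (Level1 p ((X - C a) * g * h)).Finite ∧
      (Level1 p ((X - C a) * g * h)).ncard ≤ 2 * g.natDegree := by
  classical
  have hG : (g.comp (X + C a)).Monic := hg.comp_X_add_C a
  have hGd : (g.comp (X + C a)).natDegree = g.natDegree := by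
    rw [natDegree_comp, natDegree_X_add_C, mul_one]
  have hG0 : (g.comp (X + C a)).coeff 0 ≠ 0 := by
    rw [coeff_zero_eq_eval_zero, eval_comp]
    simpa using ha
  have hPd := Pol_natDegree _ hG hG0 (by rw [hGd]; exact hd)
  rw [hGd] at hPd
  set P := Pol (g.comp (X + C a)) with hP
  have hP0 : P ≠ 0 := by
    intro h0
    rw [h0, natDegree_zero] at hPd
    omega
  have hPm : P.map (algebraMap ℤ ℚ_[p]) ≠ 0 :=
    (Polynomial.map_ne_zero_iff (algebraMap ℤ ℚ_[p]).injective_int).2 hP0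
  let φ : ℤ_[p] → ℚ_[p] := fun z => (z : ℚ_[p]) - a
  have hφ : Function.Injective φ := by
    intro x y hxy
    exact PadicInt.ext (sub_left_injective hxy)
  have hsub : φ '' Level1 p ((X - C a) * g * h) ⊆ ((P.map (algebraMap ℤ ℚ_[p])).roots.toFinset : Set ℚ_[p]) := by
    rintro y ⟨z, ⟨-, n, hn, hz⟩, rfl⟩
    have h1 := (main hg hd ha hn (Approx.dvd hz)).1
    rw [Finset.mem_coe, Multiset.mem_toFinset, mem_roots hPm, IsRoot.def, eval_map_algebraMap]
    exact h1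
  have hfin := (Finset.finite_toSet _).subset hsub
  refine ⟨hfin.of_finite_image hφ.injOn, ?_⟩
  rw [← Set.ncard_image_of_injective _ hφ]
  refine (Set.ncard_le_ncard hsub (Finset.finite_toSet _)).trans ?_
  rw [Set.ncard_coe_finset]
  refine (Multiset.toFinset_card_le _).trans ((card_roots' _).trans ?_)
  exact natDegree_map_le.trans hPd.le

theorem order_bound {a : ℤ} {g h : ℤ[X]} (hg : g.Monic) (hd : 0 < g.natDegree) (ha : g.eval a ≠ 0)
    (z : ℤ_[p]) (hz : z ∈ Level1 p ((X - C a) * g * h)) :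
    ∃ m : ℕ, 0 < m ∧ m.totient ≤ 2 * g.natDegree ∧ IsPrimitiveRoot (z - a) m := by
  obtain ⟨-, n, hn, hz⟩ := hz
  have hz' : Approx p ((X - C a) * g) z n := Approx.dvd hz
  have h1 := (root_step hg hz').1
  refine ⟨orderOf (z - a), ?_, (main hg hd ha hn hz').2.1, IsPrimitiveRoot.orderOf _⟩
  exact orderOf_pos_iff.2 (isOfFinOrder_iff_pow_eq_one.2 ⟨2 * n, by omega, h1⟩)

theorem good_inf (d N : ℕ) : ∃ p, N < p ∧ p.Prime ∧ Good d p := by
  have hM : 4 * (2 * d + 1).factorial ≠ 0 := by positivity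
  haveI : NeZero (4 * (2 * d + 1).factorial) := ⟨hM⟩
  obtain ⟨p, h1, h2, h3⟩ := Nat.forall_exists_prime_gt_and_eq_mod
    (q := 4 * (2 * d + 1).factorial) (a := -1) isUnit_one.neg N
  refine ⟨p, h1, h2, ?_⟩
  have h4 : 4 * (2 * d + 1).factorial ∣ p + 1 := by
    rw [← ZMod.natCast_eq_zero_iff]
    push_cast
    rw [h3]
    ring
  constructor
  · have := (Dvd.intro _ rfl : 4 ∣ 4 * (2 * d + 1).factorial).trans h4
    omega
  · intro q hq hq2 hqd hqp
    have h5 : q ∣ p + 1 := (((hq.dvd_factorial).2 hqd).trans (Dvd.intro_left _ rfl)).trans h4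
    have h6 : q ∣ 2 := by
      have := (Nat.dvd_sub h5 hqp)
      have h7 := h2.one_lt
      have h8 : p + 1 - (p - 1) = 2 := by omega
      rwa [h8] at this
    exact hq2 ((Nat.prime_dvd_prime_iff_eq hq Nat.prime_two).1 h6)

theorem pm_int {a : ℤ} (z : ℤ_[p]) (hz : z - a = 1 ∨ z - a = -1) : ∃ x : ℤ, z = x := by
  rcases hz with hz | hz
  · exact ⟨a + 1, by push_cast; linear_combination hz⟩
  · exact ⟨a - 1, by push_cast; linear_combination hz⟩

theorem settled_good {a : ℤ} {g h : ℤ[X]} (hf : ((X - C a) * g * h).Monic) (hg : g.Monic)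
    (hd : 0 < g.natDegree) (ha : g.eval a ≠ 0) (hgood : Good g.natDegree p) :
    Settled p ((X - C a) * g * h) := by
  obtain ⟨h4, hq⟩ := hgood
  refine settled_of hf fun z n hn hz => pm_int (a := a) z ?_
  have h1 := (root_step hg hz.dvd).1
  exact pm_one (2 * g.natDegree) h4 hq (by omega : 0 < 2 * n) h1 (main hg hd ha hn hz.dvd).2.1

theorem settled_ru {a : ℤ} {f : ℤ[X]} (hf : f.Monic) (ha : X - C a ∣ f)
    (hC : ∀ ζ : ℂ, Ru ζ → (∀ g : ℤ[X], g.Monic → (X - C a) * g ∣ f → Ru (aeval (a + ζ) g)) →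
      ζ = 1 ∨ ζ = -1) : Settled p f :=
  settled_of hf fun z _ hn hz => pm_int z (all_comp ha hC hn hz)

theorem far {k : ℤ} (hk : 2 ≤ |k|) {ζ : ℂ} (h1 : Ru ζ) (h2 : Ru (ζ + k)) : ζ = 1 ∨ ζ = -1 := by
  obtain ⟨n, hn, e1⟩ := h1
  obtain ⟨m, hm, e2⟩ := h2
  have n1 := Complex.norm_eq_one_of_pow_eq_one e1 hn.ne'
  have n2 := Complex.norm_eq_one_of_pow_eq_one e2 hm.ne'
  have s1 : ζ.re * ζ.re + ζ.im * ζ.im = 1 := by
    have := Complex.normSq_apply ζ
    rw [Complex.normSq_eq_norm_sq, n1] at this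
    linarith
  have s2 : (ζ.re + k) * (ζ.re + k) + ζ.im * ζ.im = 1 := by
    have := Complex.normSq_apply (ζ + k)
    rw [Complex.normSq_eq_norm_sq, n2] at this
    simp only [Complex.add_re, Complex.add_im, Complex.intCast_re, Complex.intCast_im,
      add_zero] at this
    linarith
  have hk0 : (k : ℝ) ≠ 0 := by
    intro h0
    have : k = 0 := by exact_mod_cast h0
    rw [this] at hk
    norm_num at hk
  have s3 : (k : ℝ) * (2 * ζ.re + k) = 0 := by linarith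
  have s4 : (k : ℝ) = -2 * ζ.re := by
    rcases mul_eq_zero.1 s3 with h0 | h0
    · exact absurd h0 hk0
    · linarith
  have s5 : (4 : ℝ) ≤ k * k := by
    have : 4 ≤ k * k := by
      rw [← abs_mul_abs_self k]
      nlinarith
    exact_mod_cast this
  rw [s4] at s5
  have s6 : ζ.im = 0 := by
    have : ζ.im * ζ.im ≤ 0 := by nlinarith
    exact mul_self_eq_zero.1 (le_antisymm this (mul_self_nonneg _))
  have s7 : (ζ.re - 1) * (ζ.re + 1) = 0 := by
    rw [s6] at s1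
    linarith
  rcases mul_eq_zero.1 s7 with h0 | h0
  · left
    apply Complex.ext
    · rw [Complex.one_re]; linarith
    · rw [s6, Complex.one_im]
  · right
    apply Complex.ext
    · rw [Complex.neg_re, Complex.one_re]; linarith
    · rw [s6, Complex.neg_im, Complex.one_im, neg_zero]

end proof

theorem result (f : ℤ[X]) (hf : f.Monic) :
    -- `𝒳(ℤ) ⊂ 𝒳(ℤ_p)_1`
    (∀ (p : ℕ) [Fact p.Prime], ∀ z ∈ IntPts f, (z : ℤ_[p]) ∈ Level1 p f) ∧
    -- an imaginary quadratic component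
    (∀ b c : ℤ, b ^ 2 - 4 * c < 0 → X ^ 2 + C b * X + C c ∣ f →
      ∀ (p : ℕ) [Fact p.Prime], Settled p f) ∧
    -- two sections
    (∀ a m : ℤ, 2 ≤ |a - m| → (X - C a) * (X - C m) ∣ f →
      ∀ (p : ℕ) [Fact p.Prime], Settled p f) ∧
    -- a section and the other components, all primes
    (∀ a : ℤ, X - C a ∣ f →
      (∀ ζ : ℂ, Ru ζ → (∀ g : ℤ[X], g.Monic → (X - C a) * g ∣ f → Ru (aeval (a + ζ) g)) →
        ζ = 1 ∨ ζ = -1) →
      ∀ (p : ℕ) [Fact p.Prime], Settled p f) ∧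
    -- a section and another component
    (∀ (a : ℤ) (g : ℤ[X]), g.Monic → 0 < g.natDegree → g.eval a ≠ 0 → (X - C a) * g ∣ f →
      ∀ (p : ℕ) [Fact p.Prime],
        (Good g.natDegree p → Settled p f) ∧
        (∀ z ∈ Level1 p f, ∃ m : ℕ, 0 < m ∧ m.totient ≤ 2 * g.natDegree ∧
          IsPrimitiveRoot (z - a) m) ∧
        (Level1 p f).Finite ∧ (Level1 p f).ncard ≤ 2 * g.natDegree) ∧
    (∀ d N : ℕ, Good d 3 ∧ ∃ p, N < p ∧ p.Prime ∧ Good d p) := by
  refine ⟨fun p _ z hz => mem_level f z hz, ?_, ?_, fun a ha hC p _ => settled_ru hf ha hC, ?_,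
    fun d N => ⟨⟨by norm_num, ?_⟩, good_inf d N⟩⟩
  · rintro b c hD ⟨h, rfl⟩ p _
    exact settled_of hf fun z n hn hz => Pool.Agent.N874.WG.iq hD hn hz.dvd
  · intro a m ham hdvd p _
    refine settled_ru hf ((Dvd.intro _ rfl).trans hdvd) fun ζ h1 h2 => far (k := a - m) ham h1 ?_
    have h3 := h2 (X - C m) (monic_X_sub_C m) hdvd
    have e : aeval ((a : ℂ) + ζ) (X - C m : ℤ[X]) = ζ + ((a - m : ℤ) : ℂ) := by
      simp
      ring
    rwa [e] at h3
  · rintro a g hg hd ha ⟨h, rfl⟩ p _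
    have h1 := fin_bound (p := p) (h := h) hg hd ha
    exact ⟨settled_good hf hg hd ha, order_bound hg hd ha, h1.1, h1.2⟩
  · intro q hq hq2 _ hqd
    exact hq2 ((Nat.prime_dvd_prime_iff_eq hq Nat.prime_two).1 hqd)

end Pool.Agent.Results.MP_fd87b4_nt.LevelOneForTheLine
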